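import Pool.Agent.N70.EQ.Stm

/-!
EQ/MU (helper530): multiplicities of the roots of a polynomial whose norm is a power.
-/

set_option autoImplicit false

namespace Pool.Agent.N530.EQ

open Polynomial Pool.Agent.N70.EQ

theorem t_mu : Pool.Agent.N70.EQ.St_mu := by
  intro k _ _ G A t c₀ d hG hc₀ hd hA h
  classical
  -- the roots of `t ^ d`
  have h1 : d • t.roots = G.roots.map A := by
    rw [← roots_pow, h, roots_C_mul _ hc₀]
    have h2 : (G.roots.map fun c => X - C (A c)) = (G.roots.map A).map (fun a => X - C a) := by
      rw [Multiset.map_map]; rfl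
    rw [h2, roots_multiset_prod_X_sub_C]
  -- the multiplicities are divisible by `d`
  have h3 : ∀ c ∈ G.roots, d ∣ G.roots.count c := by
    intro c hc
    have h4 : (G.roots.map A).count (A c) = G.roots.count c := by
      rw [Multiset.count_map]
      rw [Multiset.count]
      rw [Multiset.countP_eq_card_filter]
      congr 1
      apply Multiset.filter_congr
      intro x hx
      constructor
      · intro hx2; exact hA c hc x hx hx2
      · intro hx2; rw [hx2]
    rw [← h4, ← h1, Multiset.count_nsmul]
    exact dvd_mul_right _ _
  refine ⟨∏ c ∈ G.roots.toFinset, (X - C c) ^ (G.roots.count c / d), ?_, ?_⟩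
  · exact monic_prod_of_monic _ _ fun c _ => (monic_X_sub_C c).pow _
  · have h5 : (∏ c ∈ G.roots.toFinset, (X - C c) ^ (G.roots.count c / d)) ^ d
        = (G.roots.map fun c => X - C c).prod := by
      rw [← Finset.prod_pow, Finset.prod_multiset_map_count]
      refine Finset.prod_congr rfl fun c hc => ?_
      rw [← pow_mul, Nat.div_mul_cancel (h3 c (Multiset.mem_toFinset.1 hc))]
    rw [h5]
    exact (IsAlgClosed.splits G).eq_prod_roots

end Pool.Agent.N530.EQ
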